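import Mathlib

open Matrix Filter Topology
open scoped ComplexOrder

namespace Pool.Agent.Results.MP_1a2443_an.Product

variable {X : Type*}

/-- A kernel on `X`: positive semidefinite (Mathlib's notion for an arbitrary index type: Hermitian
and nonnegative on all finitely supported vectors) and nowhere zero on the diagonal. -/
def IsKernel (k : X → X → ℂ) : Prop := (Matrix.of k).PosSemidef ∧ ∀ z, k z z ≠ 0

/-- The block matrix `[ℓ(z i, z j) I - k(z i, z j) W i (W j)^*]`. -/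
def pick {ι : Type*} {N : ℕ} (k l : X → X → ℂ) (z : ι → X) (W : ι → Matrix (Fin N) (Fin N) ℂ) :
    Matrix (ι × Fin N) (ι × Fin N) ℂ :=
  Matrix.of fun p q => l (z p.1) (z q.1) * (1 : Matrix (Fin N) (Fin N) ℂ) p.2 q.2
    - k (z p.1) (z q.1) * (W p.1 * (W q.1)ᴴ) p.2 q.2

/-- `Φ` is a contractive multiplier: `ℓ(z,w) I - k(z,w) Φ(z) Φ(w)^*` is a positive kernel on `X`. -/
def IsContr {N : ℕ} (k l : X → X → ℂ) (Φ : X → Matrix (Fin N) (Fin N) ℂ) : Prop :=
  (pick k l id Φ).PosSemidef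

/-- Complete Pick pair. -/
def IsCPPair (k l : X → X → ℂ) : Prop :=
  ∀ n N : ℕ, 1 ≤ n → 1 ≤ N → ∀ (z : Fin n → X) (W : Fin n → Matrix (Fin N) (Fin N) ℂ),
    (pick k l z W).PosSemidef → ∃ Φ : X → Matrix (Fin N) (Fin N) ℂ,
      IsContr k l Φ ∧ ∀ i, Φ (z i) = W i

def T {I D : Type*} [Fintype D] (k l : X → X → ℂ) (x : I → X) (α β : Matrix I D ℂ) :
    Matrix I I ℂ :=
  Matrix.of fun a b => l (x a) (x b) * (α * αᴴ) a b - k (x a) (x b) * (β * βᴴ) a b

lemma gram {I D : Type*} [Fintype D] (α : Matrix I D ℂ) (a b : I) :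
    (α * αᴴ) a b = α a ⬝ᵥ star (α b) := rfl

lemma compress {I : Type*} [Fintype I] {N : ℕ} {k l : X → X → ℂ}
    {Φ : X → Matrix (Fin N) (Fin N) ℂ} (h : IsContr k l Φ) (x : I → X) (α : Matrix I (Fin N) ℂ) :
    (T k l x α (Matrix.of fun a => α a ᵥ* Φ (x a))).PosSemidef := by
  classical
  have h1 := (h.submatrix (fun p : I × Fin N => (x p.1, p.2))).mul_mul_conjTranspose_same
    (Matrix.of fun (a : I) (p : I × Fin N) => if a = p.1 then α a p.2 else 0)
  convert h1 using 1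
  ext a b
  have e1 : (T k l x α (Matrix.of fun a => α a ᵥ* Φ (x a))) a b = (α a ᵥ* (l (x a) (x b) •
      (1 : Matrix (Fin N) (Fin N) ℂ) - k (x a) (x b) • (Φ (x a) * (Φ (x b))ᴴ))) ⬝ᵥ star (α b) := by
    simp only [T, of_apply, gram]
    rw [vecMul_sub, vecMul_smul, vecMul_smul, vecMul_one, sub_dotProduct, smul_dotProduct,
      smul_dotProduct, ← vecMul_vecMul, ← dotProduct_mulVec (α a ᵥ* Φ (x a)), ← star_vecMul]
    rfl
  rw [e1]
  simp [mul_apply, Fintype.sum_prod_type, vecMul, dotProduct, pick, apply_ite (starRingEnd ℂ)]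

lemma range_ex {I D J : Type*} [Fintype I] [Fintype D] [Fintype J] (A : Matrix I J ℂ)
    (B : Matrix D J ℂ) : ∃ C : Matrix I D ℂ, A * Bᴴ = A * Aᴴ * C := by
  classical
  have h : LinearMap.range (A * Aᴴ).mulVecLin = LinearMap.range A.mulVecLin := by
    apply Submodule.eq_of_le_of_finrank_eq
    · rw [mulVecLin_mul]; exact LinearMap.range_comp_le_range _ _
    · exact rank_self_mul_conjTranspose A
  have h2 : ∀ d : D, ∃ c : I → ℂ, (A * Aᴴ) *ᵥ c = A *ᵥ (fun j => Bᴴ j d) := by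
    intro d
    have : A *ᵥ (fun j => Bᴴ j d) ∈ LinearMap.range (A * Aᴴ).mulVecLin := by
      rw [h]; exact ⟨_, rfl⟩
    exact this
  choose c hc using h2
  refine ⟨Matrix.of fun i d => c d i, ?_⟩
  ext i d
  exact (congrFun (hc d) i).symm

open MatrixOrder in
lemma factor {J : Type*} [Fintype J] {M : Matrix J J ℂ} (h : M.PosSemidef) :
    ∃ B : Matrix J J ℂ, M = B * Bᴴ := by
  classical
  obtain ⟨B, rfl⟩ := CStarAlgebra.nonneg_iff_eq_mul_star_self.mp h.nonneg
  exact ⟨B, rfl⟩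

lemma parrott {I D E : Type*} [Fintype I] [Fintype D] [Fintype E]
    (M : Matrix (I ⊕ D) (I ⊕ D) ℂ) (hM : M.PosSemidef) (Γ : Matrix I E ℂ)
    (h : (M.submatrix Sum.inl Sum.inl - Γ * Γᴴ).PosSemidef) :
    ∃ Γ' : Matrix D E ℂ, (M - fromRows Γ Γ' * (fromRows Γ Γ')ᴴ).PosSemidef := by
  classical
  obtain ⟨N, rfl⟩ := factor hM
  set A := N.toRows₁
  set B := N.toRows₂
  have hN : N = fromRows A B := (fromRows_toRows N).symm
  obtain ⟨C, hC⟩ := range_ex A B
  have hA : (N * Nᴴ).submatrix Sum.inl Sum.inl = A * Aᴴ := by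
    ext i j; rfl
  rw [hA] at h
  refine ⟨Cᴴ * Γ, ?_⟩
  set P : Matrix (I ⊕ D) I ℂ := fromRows (1 : Matrix I I ℂ) Cᴴ with hP
  set R : Matrix (I ⊕ D) (I ⊕ D) ℂ := fromRows (0 : Matrix I (I ⊕ D) ℂ) (B - Cᴴ * A) with hR
  have h1 := h.mul_mul_conjTranspose_same P
  have h2 := posSemidef_self_mul_conjTranspose R
  have e1 : fromRows Γ (Cᴴ * Γ) = P * Γ := by rw [hP, fromRows_mul, Matrix.one_mul]
  have e2 : N = P * A + R := by
    rw [hN, hP, hR, fromRows_mul, Matrix.one_mul]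
    ext (i | i) j <;> simp
  have e3 : A * Rᴴ = 0 := by
    rw [hR, conjTranspose_fromRows_eq_fromCols_conjTranspose, mul_fromCols, conjTranspose_sub,
      conjTranspose_mul, conjTranspose_conjTranspose, Matrix.mul_sub, hC, Matrix.mul_assoc]
    simp
  have e4 : R * Aᴴ = 0 := by
    have := congrArg conjTranspose e3
    simpa [conjTranspose_mul] using this
  convert h1.add h2 using 1
  rw [e1, e2]
  simp only [conjTranspose_add, conjTranspose_mul, Matrix.add_mul, Matrix.mul_add, Matrix.mul_sub,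
    Matrix.sub_mul, Matrix.mul_assoc, e3, Matrix.mul_zero]
  rw [← Matrix.mul_assoc R, e4, Matrix.zero_mul]
  abel

lemma swap {J D : Type*} [Fintype D] (k l : X → X → ℂ) (w : X) (g : X → ℂ)
    (hg : ∀ y y', y = w ∨ y' = w → k y y' = g y * star (g y')) (x : J → X) (α β γ : Matrix J D ℂ)
    (h : ∀ a, x a ≠ w → β a = γ a) :
    T k l x α β + (Matrix.of fun a t => g (x a) * β a t) * (Matrix.of fun a t => g (x a) * β a t)ᴴ
      - (Matrix.of fun a t => g (x a) * γ a t) * (Matrix.of fun a t => g (x a) * γ a t)ᴴ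
      = T k l x α γ := by
  have e : ∀ (δ : Matrix J D ℂ) (a b : J), ((Matrix.of fun a t => g (x a) * δ a t)
      * (Matrix.of fun a t => g (x a) * δ a t)ᴴ : Matrix J J ℂ) a b
      = g (x a) * star (g (x b)) * (δ * δᴴ) a b := by
    intro δ a b
    simp only [mul_apply, of_apply, conjTranspose_apply, star_mul', Finset.mul_sum]
    exact Finset.sum_congr rfl fun t _ => by ring
  ext a b
  rw [Matrix.sub_apply, Matrix.add_apply, e, e]
  simp only [T, of_apply]
  by_cases hab : x a = w ∨ x b = w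
  · rw [hg _ _ hab]; ring
  · push Not at hab
    rw [gram β, gram γ, h a hab.1, h b hab.2]; ring

lemma ex_g {k : X → X → ℂ} (hk : IsKernel k) (w : X) : ∃ g : X → ℂ, g w ≠ 0 ∧
    ∀ y y', y = w ∨ y' = w → k y y' = g y * star (g y') := by
  have h0 : 0 ≤ k w w := hk.1.diag_nonneg (i := w)
  obtain ⟨r, hr, hr'⟩ : ∃ r : ℝ, 0 ≤ r ∧ k w w = r := by
    obtain ⟨h1, h2⟩ := Complex.le_def.1 h0
    exact ⟨(k w w).re, h1, Complex.ext rfl (by simpa using h2.symm)⟩
  have hs : ((√r : ℝ) : ℂ) * (√r : ℝ) = k w w := by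
    rw [hr']; exact_mod_cast Real.mul_self_sqrt hr
  have hs0 : ((√r : ℝ) : ℂ) ≠ 0 := fun e => hk.2 w (by rw [← hs, e, zero_mul])
  have hH : ∀ y y', star (k y y') = k y' y := fun y y' => hk.1.1.apply y' y
  have hst : star ((√r : ℝ) : ℂ) = (√r : ℝ) := Complex.conj_ofReal _
  refine ⟨fun y => k y w / (√r : ℝ), div_ne_zero (hk.2 w) hs0, fun y y' h => ?_⟩
  simp only [star_div₀, hH, hst]
  rcases h with rfl | rfl
  · rw [← hs]; field_simp
  · rw [← hs]; field_simp

lemma step {I : Type*} [Fintype I] {N : ℕ} {k l : X → X → ℂ} (hk : IsKernel k) (w : X)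
    (x : I → X) (α β : Matrix I (Fin N) ℂ) (h : (T k l x α β).PosSemidef)
    {Φ : X → Matrix (Fin N) (Fin N) ℂ} (hΦ : IsContr k l Φ)
    (hm : ∀ a, x a ≠ w → α a ᵥ* Φ (x a) = β a) :
    ∃ V : Matrix (Fin N) (Fin N) ℂ, (T k l (Sum.elim x fun _ => w)
      (fromRows α (1 : Matrix (Fin N) (Fin N) ℂ)) (fromRows β V)).PosSemidef := by
  obtain ⟨g, hg0, hg⟩ := ex_g hk w
  set x' : I ⊕ Fin N → X := Sum.elim x fun _ => w with hx'
  set α' := fromRows α (1 : Matrix (Fin N) (Fin N) ℂ) with hα'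
  set β' : Matrix (I ⊕ Fin N) (Fin N) ℂ := Matrix.of fun a => α' a ᵥ* Φ (x' a) with hβ'
  have h1 := (compress hΦ x' α').add
    (posSemidef_self_mul_conjTranspose (Matrix.of fun a t => g (x' a) * β' a t))
  obtain ⟨Γ, hΓ⟩ := parrott _ h1 (Matrix.of fun a t => g (x a) * β a t) (by
    have := swap k l w g hg x α (Matrix.of fun a => α a ᵥ* Φ (x a)) β hm
    rw [← this] at h
    exact h)
  refine ⟨(g w)⁻¹ • Γ, ?_⟩
  rw [← swap k l w g hg x' α' β' (fromRows β ((g w)⁻¹ • Γ))]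
  · have : (Matrix.of fun a t => g (x' a) * fromRows β ((g w)⁻¹ • Γ) a t)
        = fromRows (Matrix.of fun a t => g (x a) * β a t) Γ := by
      ext (a | a) t <;> simp [hx', hg0]
    rw [this]
    exact hΓ
  · rintro (a | a) ha
    · exact hm a ha
    · exact (ha rfl).elim

lemma consist {I : Type*} {N : ℕ} {k l : X → X → ℂ} (hk : IsKernel k)
    (x : I → X) (α β : Matrix I (Fin N) ℂ) (h : (T k l x α β).PosSemidef) (a : I)
    (b : Fin N → I) (hb : ∀ r, x (b r) = x a ∧ α (b r) = (1 : Matrix (Fin N) (Fin N) ℂ) r) :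
    α a ᵥ* (Matrix.of fun r => β (b r)) = β a := by
  let e : Unit ⊕ Fin N → I := Sum.elim (fun _ => a) b
  have hx : ∀ j, x (e j) = x a := by
    rintro (j | j)
    exacts [rfl, (hb j).1]
  have h1 : (T k l x α β).submatrix e e = l (x a) (x a) • (α.submatrix e id * (α.submatrix e id)ᴴ)
      - k (x a) (x a) • (β.submatrix e id * (β.submatrix e id)ᴴ) := by
    ext i j
    simp only [submatrix_apply, T, of_apply, hx]
    rfl
  let c : Matrix Unit (Unit ⊕ Fin N) ℂ := Matrix.of fun _ => Sum.elim (fun _ => -1) (α a)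
  have h2 := (h.submatrix e).mul_mul_conjTranspose_same c
  have h3 : c * α.submatrix e id = 0 := by
    ext i t
    simp [mul_apply, c, e, (hb _).2, one_apply]
  have h4 : ∀ t, (c * β.submatrix e id) () t = (α a ᵥ* (Matrix.of fun r => β (b r)) - β a) t := by
    intro t
    simp [mul_apply, c, e, vecMul, dotProduct]
    ring
  rw [h1, Matrix.mul_sub, Matrix.mul_smul, Matrix.mul_smul, ← Matrix.mul_assoc, h3,
    Matrix.zero_mul, smul_zero, zero_sub, Matrix.neg_mul, Matrix.smul_mul, ← Matrix.mul_assoc,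
    Matrix.mul_assoc _ _ cᴴ, ← conjTranspose_mul] at h2
  have h5 := h2.diag_nonneg (i := ())
  rw [Matrix.neg_apply, Matrix.smul_apply, gram, funext h4, smul_eq_mul] at h5
  have h0 : 0 < k (x a) (x a) := lt_of_le_of_ne (hk.1.diag_nonneg (i := x a)) (hk.2 _).symm
  have h6 := dotProduct_self_star_nonneg (α a ᵥ* (Matrix.of fun r => β (b r)) - β a)
  have h7 := le_antisymm (neg_nonneg.1 h5) (mul_nonneg h0.le h6)
  exact sub_eq_zero.1 (dotProduct_self_star_eq_zero.1 ((mul_eq_zero.1 h7).resolve_left h0.ne'))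

lemma zero_contr {N : ℕ} {k l : X → X → ℂ} (hl : IsKernel l) :
    IsContr k l (fun _ => (0 : Matrix (Fin N) (Fin N) ℂ)) := by
  have := (hl.1.submatrix (Prod.fst : X × Fin N → X)).hadamard
    ((PosSemidef.one : (1 : Matrix (Fin N) (Fin N) ℂ).PosSemidef).submatrix Prod.snd)
  have e : pick k l id (fun _ => (0 : Matrix (Fin N) (Fin N) ℂ))
      = (Matrix.of l).submatrix Prod.fst Prod.fst ⊙
        (1 : Matrix (Fin N) (Fin N) ℂ).submatrix Prod.snd Prod.snd := by
    ext p q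
    simp [pick]
  unfold IsContr
  rw [e]
  exact this

lemma tang {N : ℕ} (hN : 1 ≤ N) {k l : X → X → ℂ} (hk : IsKernel k) (hl : IsKernel l)
    (hcp : IsCPPair k l) (F : Finset X) : ∀ (I : Type) [Fintype I] (x : I → X)
    (α β : Matrix I (Fin N) ℂ), (T k l x α β).PosSemidef →
    (∀ a, x a ∈ F ∨ ∀ r, ∃ b, x b = x a ∧ α b = (1 : Matrix (Fin N) (Fin N) ℂ) r) →
    ∃ Φ, IsContr k l Φ ∧ ∀ a, α a ᵥ* Φ (x a) = β a := by
  classical
  induction F using Finset.induction_on with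
  | empty =>
    intro I _ x α β h hf
    rcases isEmpty_or_nonempty I with hI | hI
    · exact ⟨_, zero_contr hl, fun a => hI.elim a⟩
    have hf' : ∀ a r, ∃ b, x b = x a ∧ α b = (1 : Matrix (Fin N) (Fin N) ℂ) r :=
      fun a => (hf a).resolve_left (by simp)
    choose b hb using hf'
    let e := (Fintype.equivFin I).symm
    obtain ⟨Φ, h1, h2⟩ := hcp _ N Fintype.card_pos hN (fun i => x (e i))
      (fun i => Matrix.of fun r => β (b (e i) r)) (by
        convert h.submatrix (fun p : Fin (Fintype.card I) × Fin N => b (e p.1) p.2) using 1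
        ext p q
        have e1 : (α * αᴴ) (b (e p.1) p.2) (b (e q.1) q.2)
            = (1 : Matrix (Fin N) (Fin N) ℂ) p.2 q.2 := by
          rw [gram, (hb _ _).2, (hb _ _).2, ← gram, conjTranspose_one, Matrix.mul_one]
        simp only [pick, T, of_apply, submatrix_apply, (hb _ _).1, e1]
        rfl)
    refine ⟨Φ, h1, fun a => ?_⟩
    obtain ⟨i, rfl⟩ := e.surjective a
    rw [h2 i]
    exact consist hk x α β h _ _ (hb _)
  | insert w F _ ih =>
    intro I _ x α β h hf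
    obtain ⟨Φ, h1, h2⟩ := ih {a // x a ≠ w} (fun a => x a) (α.submatrix (↑) id)
      (β.submatrix (↑) id) (h.submatrix (Subtype.val : {a // x a ≠ w} → I)) (by
        rintro ⟨a, ha⟩
        rcases hf a with h3 | h3
        · exact Or.inl ((Finset.mem_insert.1 h3).resolve_left ha)
        · refine Or.inr fun r => ?_
          obtain ⟨b, hb, hb'⟩ := h3 r
          exact ⟨⟨b, hb ▸ ha⟩, hb, hb'⟩)
    obtain ⟨V, hV⟩ := step hk w x α β h h1 fun a ha => h2 ⟨a, ha⟩
    obtain ⟨Ψ, h3, h4⟩ := ih _ _ _ _ hV (by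
      have hw : ∀ a : I ⊕ Fin N, Sum.elim x (fun _ => w) a = w → ∀ r, ∃ b : I ⊕ Fin N,
          Sum.elim x (fun _ => w) b = Sum.elim x (fun _ => w) a ∧
          fromRows α (1 : Matrix (Fin N) (Fin N) ℂ) b = (1 : Matrix (Fin N) (Fin N) ℂ) r :=
        fun a ha r => ⟨Sum.inr r, ha.symm, rfl⟩
      rintro (a | a)
      · rcases hf a with h3 | h3
        · rcases Finset.mem_insert.1 h3 with h4 | h4
          · exact Or.inr (hw _ h4)
          · exact Or.inl h4
        · refine Or.inr fun r => ?_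
          obtain ⟨b, hb, hb'⟩ := h3 r
          exact ⟨Sum.inl b, hb, hb'⟩
      · exact Or.inr (hw _ rfl))
    exact ⟨Ψ, h3, fun a => h4 (Sum.inl a)⟩

lemma stage {n N : ℕ} (hn : 1 ≤ n) (hN : 1 ≤ N) {k l h : X → X → ℂ} (hk : IsKernel k)
    (hl : IsKernel l) (hh : IsKernel h) (hcp : IsCPPair k l) (z : Fin n → X)
    (W : Fin n → Matrix (Fin N) (Fin N) ℂ)
    (hW : (pick k (fun a b => l a b * h a b) z W).PosSemidef) (Y : Finset X) :
    ∃ Ψ : X → Matrix (Fin N) (Fin N) ℂ, (pick k (fun a b => l a b * h a b)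
      (Subtype.val : Y → X) fun y => Ψ y).PosSemidef ∧ ∀ i, Ψ (z i) = W i := by
  classical
  set Y' := Y ∪ Finset.univ.image z with hY'
  have hz : ∀ i, z i ∈ Y' := fun i => by simp [hY']
  obtain ⟨B, hB⟩ := factor (hh.1.submatrix (Subtype.val : Y' → X))
  let j0 : Y' := ⟨z ⟨0, hn⟩, hz _⟩
  have : Nonempty (Y' × Fin N) := ⟨(j0, ⟨0, hN⟩)⟩
  let e := (Fintype.equivFin (Y' × Fin N)).symm
  let A : X → Fin N → Fin (Fintype.card (Y' × Fin N)) → ℂ := fun y r m =>
    (if hy : y ∈ Y' then B ⟨y, hy⟩ (e m).1 else 0) * (1 : Matrix (Fin N) (Fin N) ℂ) r (e m).2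
  have hsum : ∀ f : Y' × Fin N → ℂ, ∑ m, f (e m) = ∑ j, ∑ s, f (j, s) := fun f => by
    rw [Equiv.sum_comp e f, Fintype.sum_prod_type]
  have hA : ∀ y ∈ Y', ∀ y' ∈ Y', ∀ r s, A y r ⬝ᵥ star (A y' s)
      = h y y' * (1 : Matrix (Fin N) (Fin N) ℂ) r s := by
    intro y hy y' hy' r s
    have h1 : h y y' = ∑ j, B ⟨y, hy⟩ j * star (B ⟨y', hy'⟩ j) :=
      congrFun (congrFun hB ⟨y, hy⟩) ⟨y', hy'⟩
    simp only [dotProduct, A, dif_pos hy, dif_pos hy', Pi.star_apply]
    rw [hsum fun d => B ⟨y, hy⟩ d.1 * (1 : Matrix (Fin N) (Fin N) ℂ) r d.2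
      * star (B ⟨y', hy'⟩ d.1 * (1 : Matrix (Fin N) (Fin N) ℂ) s d.2), h1, Finset.sum_mul]
    refine Finset.sum_congr rfl fun j _ => ?_
    by_cases hrs : r = s
    · subst hrs; simp [one_apply, apply_ite (starRingEnd ℂ)]
    · simp [one_apply, apply_ite (starRingEnd ℂ), hrs]
  have hsplit : ∀ u v : Fin (Fintype.card (Y' × Fin N)) → ℂ, u ⬝ᵥ star v
      = (fun s => u (e.symm (j0, s))) ⬝ᵥ star (fun s => v (e.symm (j0, s)))
      + (fun m => if (e m).1 = j0 then 0 else u m) ⬝ᵥ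
        star (fun m => if (e m).1 = j0 then 0 else v m) := by
    intro u v
    have h1 : (fun s => u (e.symm (j0, s))) ⬝ᵥ star (fun s => v (e.symm (j0, s)))
        = ∑ m, if (e m).1 = j0 then u (e.symm (e m)) * star (v (e.symm (e m))) else 0 := by
      rw [hsum fun d => if d.1 = j0 then u (e.symm d) * star (v (e.symm d)) else 0,
        Finset.sum_comm]
      simp [dotProduct]
    rw [h1]
    simp only [dotProduct, Equiv.symm_apply_apply, Pi.star_apply, ← Finset.sum_add_distrib]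
    refine Finset.sum_congr rfl fun m _ => ?_
    split_ifs <;> simp
  obtain ⟨Φ, h1, h2⟩ := tang Fintype.card_pos hk hl hcp (Finset.univ.image z) (Fin n × Fin N)
    (fun p => z p.1) (Matrix.of fun p => A (z p.1) p.2)
    (Matrix.of fun p m => if (e m).1 = j0 then W p.1 p.2 (e m).2 else 0) (by
      convert hW using 1
      ext p q
      simp only [T, pick, of_apply, gram]
      rw [hsplit (Matrix.of (fun (p : Fin n × Fin N) m =>
        if (e m).1 = j0 then W p.1 p.2 (e m).2 else 0) p)]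
      have h3 : ∀ p : Fin n × Fin N, (fun m => if (e m).1 = j0 then 0 else Matrix.of
          (fun (p : Fin n × Fin N) m => if (e m).1 = j0 then W p.1 p.2 (e m).2 else 0) p m) = 0 := by
        intro p; funext m
        by_cases hm : (e m).1 = j0 <;> simp [hm]
      rw [h3, zero_dotProduct, add_zero]
      have h4 := hA _ (hz p.1) _ (hz q.1) p.2 q.2
      change l _ _ * (A (z p.1) p.2 ⬝ᵥ star (A (z q.1) q.2)) - _ = _
      rw [h4, ← mul_assoc]
      congr 2
      simp [dotProduct, mul_apply]) (fun p => Or.inl (by simp))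
  refine ⟨fun y => Matrix.of fun r s => (A y r ᵥ* Φ y) (e.symm (j0, s)), ?_, fun i => ?_⟩
  · have h3 := compress h1 (fun p : Y × Fin N => (p.1 : X)) (Matrix.of fun p => A p.1 p.2)
    have h4 := (hk.1.submatrix (fun p : Y × Fin N => (p.1 : X))).hadamard
      (posSemidef_self_mul_conjTranspose (Matrix.of fun (p : Y × Fin N) m =>
        if (e m).1 = j0 then 0 else (A p.1 p.2 ᵥ* Φ p.1) m))
    convert h3.add h4 using 1
    ext p q
    have h5 := hA p.1 (Finset.mem_union_left _ p.1.2) q.1 (Finset.mem_union_left _ q.1.2) p.2 q.2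
    have h6 := hsplit (A p.1 p.2 ᵥ* Φ p.1) (A q.1 q.2 ᵥ* Φ q.1)
    change l p.1 q.1 * h p.1 q.1 * (1 : Matrix (Fin N) (Fin N) ℂ) p.2 q.2 - k p.1 q.1 *
      ((fun s => (A p.1 p.2 ᵥ* Φ p.1) (e.symm (j0, s))) ⬝ᵥ
        star (fun s => (A q.1 q.2 ᵥ* Φ q.1) (e.symm (j0, s))))
      = (l p.1 q.1 * (A p.1 p.2 ⬝ᵥ star (A q.1 q.2)) - k p.1 q.1 * ((A p.1 p.2 ᵥ* Φ p.1) ⬝ᵥ
        star (A q.1 q.2 ᵥ* Φ q.1))) + k p.1 q.1 * ((fun m => if (e m).1 = j0 then 0 else
          (A p.1 p.2 ᵥ* Φ p.1) m) ⬝ᵥ star (fun m => if (e m).1 = j0 then 0 else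
          (A q.1 q.2 ᵥ* Φ q.1) m))
    rw [h5, h6]; ring
  · ext r s
    have := congrFun (h2 (i, r)) (e.symm (j0, s))
    refine Eq.trans this ?_
    simp

lemma psd_of_fin {ι : Type*} (M : Matrix ι ι ℂ)
    (h : ∀ S : Finset ι, (M.submatrix (↑) (↑) : Matrix S S ℂ).PosSemidef) : M.PosSemidef := by
  classical
  refine ⟨IsHermitian.ext fun i j => (h {i, j}).1.apply ⟨i, by simp⟩ ⟨j, by simp⟩, fun x => ?_⟩
  simpa [Finsupp.sum, ← Finset.sum_attach x.support, ← Finset.subtype_mem_eq_attach,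
    ← Finsupp.subtypeDomain_apply, ← Finsupp.support_subtypeDomain] using (h x.support).2 _

lemma psd_lim {ι κ : Type*} [Fintype ι] (U : Filter κ) [U.NeBot] (M : κ → Matrix ι ι ℂ)
    (L : Matrix ι ι ℂ) (h : ∀ i j, Tendsto (fun y => M y i j) U (𝓝 (L i j)))
    (hp : ∀ᶠ y in U, (M y).PosSemidef) : L.PosSemidef := by
  refine .of_dotProduct_mulVec_nonneg (IsHermitian.ext fun i j => ?_) fun x => ?_
  · refine tendsto_nhds_unique_of_eventuallyEq (h j i).star (h i j) ?_
    filter_upwards [hp] with y hy using hy.1.apply i j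
  · refine ge_of_tendsto (f := fun y => star x ⬝ᵥ (M y *ᵥ x)) (x := U) ?_ ?_
    · simp only [dotProduct, mulVec]
      exact tendsto_finsetSum _ fun i _ => tendsto_const_nhds.mul
        (tendsto_finsetSum _ fun j _ => (h i j).mul tendsto_const_nhds)
    · filter_upwards [hp] with y hy using hy.dotProduct_mulVec_nonneg x

lemma bound {N : ℕ} (a c : ℂ) (hc : 0 < c) : ∃ R : ℝ, ∀ u : Fin N → ℂ,
    0 ≤ a - c * (u ⬝ᵥ star u) → ∀ s, ‖u s‖ ≤ R := by
  obtain ⟨h1, h2⟩ := Complex.lt_def.1 hc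
  simp only [Complex.zero_re, Complex.zero_im] at h1 h2
  refine ⟨√(a.re / c.re), fun u hu s => Real.le_sqrt_of_sq_le ?_⟩
  have h3 : u ⬝ᵥ star u = ((∑ t, ‖u t‖ ^ 2 : ℝ) : ℂ) := by
    simp [dotProduct, Complex.mul_conj, Complex.normSq_eq_norm_sq]
  have h4 := (Complex.le_def.1 hu).1
  rw [h3, Complex.sub_re, Complex.re_mul_ofReal, Complex.zero_re] at h4
  have h5 : ‖u s‖ ^ 2 ≤ ∑ t, ‖u t‖ ^ 2 :=
    Finset.single_le_sum (f := fun t => ‖u t‖ ^ 2) (fun t _ => by positivity) (Finset.mem_univ s)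
  rw [le_div_iff₀ h1]
  nlinarith

theorem result {X : Type*} (k l h : X → X → ℂ) (hk : IsKernel k) (hl : IsKernel l)
    (hh : IsKernel h) (hcp : IsCPPair k l) : IsCPPair k (fun z w => l z w * h z w) := by
  classical
  intro n N hn hN z W hW
  choose Ψ h1 h2 using stage hn hN hk hl hh hcp z W hW
  let U := Ultrafilter.of (atTop : Filter (Finset X))
  have hU : (U : Filter (Finset X)) ≤ atTop := Ultrafilter.of_le _
  have hl : ∀ y r s, ∃ a, Tendsto (fun Y => Ψ Y y r s) U (𝓝 a) := by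
    intro y r s
    obtain ⟨R, hR⟩ := bound (N := N) (l y y * h y y) (k y y)
      (lt_of_le_of_ne (hk.1.diag_nonneg (i := y)) (hk.2 _).symm)
    obtain ⟨a, -, ha⟩ := (isCompact_closedBall (0 : ℂ) R).ultrafilter_le_nhds
      (U.map fun Y => Ψ Y y r s) (by
        rw [le_principal_iff, Ultrafilter.coe_map, mem_map]
        filter_upwards [hU (eventually_ge_atTop {y})] with Y hY
        have hy : y ∈ Y := hY (Finset.mem_singleton_self y)
        have := (h1 Y).diag_nonneg (i := (⟨y, hy⟩, r))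
        simp only [pick, of_apply, one_apply_eq, mul_one, gram] at this
        simpa using hR _ this s)
    exact ⟨a, ha⟩
  choose Φ hΦ using hl
  refine ⟨fun y => Matrix.of (Φ y), psd_of_fin _ fun S => ?_, fun i => ?_⟩
  · refine psd_lim (U : Filter (Finset X)) (fun Y => (pick k (fun z w => l z w * h z w) id
      (Ψ Y)).submatrix (↑) (↑)) _ (fun p q => ?_) ?_
    · simp only [pick, submatrix_apply, of_apply, mul_apply, conjTranspose_apply]
      exact tendsto_const_nhds.sub (tendsto_const_nhds.mul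
        (tendsto_finsetSum _ fun t _ => (hΦ _ _ _).mul (hΦ _ _ _).star))
    · filter_upwards [hU (eventually_ge_atTop (S.image Prod.fst))] with Y hY
      exact (h1 Y).submatrix (fun p : S =>
        ((⟨p.1.1, hY (Finset.mem_image_of_mem _ p.2)⟩, p.1.2) : Y × Fin N))
  · ext r s
    have := hΦ (z i) r s
    simp only [h2] at this
    exact tendsto_nhds_unique this tendsto_const_nhds

end Pool.Agent.Results.MP_1a2443_an.Product
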